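import Pool.Agent.L5helper31.AztecSums

/-!
The four entries of the Green function of the Aztec diamond which are needed.
-/

namespace Pool.Agent.L5helper31.Aztec

open Polynomial Finset
open Pool.Agent.Helper848.AztecDet (G)

/-- coefficients for `n = 2 m` -/
def γe (m k : ℕ) : ℚ :=
  if k % 2 = 0 then (1 / 4) ^ m * ((-1) ^ (m - k / 2) * ((m.choose (k / 2) : ℕ) : ℚ)) else 0

/-- coefficients for `n = 2 m + 1` -/
def γo (m k : ℕ) : ℚ :=
  1 / 2 * ((1 / 4) ^ m * ((-1) ^ (m - k / 2) * ((m.choose (k / 2) : ℕ) : ℚ)))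

theorem γe_even (m i : ℕ) :
    γe m (2 * i) = (1 / 4) ^ m * ((-1) ^ (m - i) * ((m.choose i : ℕ) : ℚ)) := by
  unfold γe
  rw [if_pos (by omega), show 2 * i / 2 = i by omega]

theorem γe_odd (m i : ℕ) : γe m (2 * i + 1) = 0 := by
  unfold γe
  rw [if_neg (by omega)]

theorem γo_even (m i : ℕ) :
    γo m (2 * i) = 1 / 2 * ((1 / 4) ^ m * ((-1) ^ (m - i) * ((m.choose i : ℕ) : ℚ))) := by
  unfold γo
  rw [show 2 * i / 2 = i by omega]

theorem γo_odd (m i : ℕ) :
    γo m (2 * i + 1) = 1 / 2 * ((1 / 4) ^ m * ((-1) ^ (m - i) * ((m.choose i : ℕ) : ℚ))) := by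
  unfold γo
  rw [show (2 * i + 1) / 2 = i by omega]

theorem sum_even_only' (f : ℕ → ℚ[X]) (h : ∀ i, f (2 * i + 1) = 0) (M : ℕ) :
    ∑ k ∈ range (2 * M + 1), f k = ∑ i ∈ range (M + 1), f (2 * i) := by
  induction M with
  | zero => simp
  | succ M ih =>
    rw [show 2 * (M + 1) + 1 = 2 * M + 1 + 1 + 1 by ring, Finset.sum_range_succ, Finset.sum_range_succ,
      ih, h, Finset.sum_range_succ (fun i => f (2 * i)) (M + 1), add_zero]
    rfl

theorem sum_pairs' (f : ℕ → ℚ[X]) (M : ℕ) :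
    ∑ k ∈ range (2 * M), f k = ∑ i ∈ range M, (f (2 * i) + f (2 * i + 1)) := by
  induction M with
  | zero => simp
  | succ M ih =>
    rw [show 2 * (M + 1) = 2 * M + 1 + 1 by ring, Finset.sum_range_succ, Finset.sum_range_succ, ih,
      Finset.sum_range_succ]
    ring

theorem hγe (m : ℕ) : ∑ k ∈ range (2 * m + 1),
    C (γe m k) * ((1 + X) ^ k * (1 - X) ^ (2 * m - k) : ℚ[X]) = X ^ m := by
  rw [sum_even_only' _ (fun i => by rw [γe_odd]; simp), ← expand_even m]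
  refine Finset.sum_congr rfl fun i hi => ?_
  rw [γe_even, show 2 * m - 2 * i = 2 * (m - i) by omega]

theorem hγo (m : ℕ) : ∑ k ∈ range (2 * m + 1 + 1),
    C (γo m k) * ((1 + X) ^ k * (1 - X) ^ (2 * m + 1 - k) : ℚ[X]) = X ^ m := by
  rw [show 2 * m + 1 + 1 = 2 * (m + 1) by ring, sum_pairs', ← expand_even m]
  refine Finset.sum_congr rfl fun i hi => ?_
  rw [mem_range] at hi
  rw [γo_even, γo_odd, show 2 * m + 1 - 2 * i = 2 * (m - i) + 1 by omega,
    show 2 * m + 1 - (2 * i + 1) = 2 * (m - i) by omega, C_mul]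
  have h2 : (C (1 / 2) : ℚ[X]) * 2 = 1 := by
    rw [show (2 : ℚ[X]) = C 2 from rfl, ← C_mul]; norm_num
  linear_combination C ((1 / 4 : ℚ) ^ m * ((-1) ^ (m - i) * ((m.choose i : ℕ) : ℚ))) *
      ((1 + X) ^ (2 * i) * (1 - X) ^ (2 * (m - i)) : ℚ[X]) * h2

/-- the first half sum: `2 i < m` -/
noncomputable def Alt (m : ℕ) : ℚ := ∑ i ∈ range ((m + 1) / 2), Dd m i
/-- the first half sum: `2 i ≤ m` -/
noncomputable def Ale (m : ℕ) : ℚ := ∑ i ∈ range ((m + 2) / 2), Dd m i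

theorem sum_Dd (m : ℕ) : ∑ i ∈ range (m + 1), Dd m i = 4 ^ m := by
  rw [← sum_cb m]
  refine Finset.sum_congr rfl fun i hi => ?_
  rw [mem_range] at hi
  rw [Dd_eq m i (by omega)]

theorem Alt_even (j : ℕ) : Alt (2 * j) = (16 ^ j - cb j ^ 2) / 2 := by
  unfold Alt
  rw [show (2 * j + 1) / 2 = j by omega, ← half_even j]
  refine Finset.sum_congr rfl fun i hi => ?_
  rw [mem_range] at hi
  rw [Dd_eq _ i (by omega)]

theorem Ale_even (j : ℕ) : Ale (2 * j) = (16 ^ j + cb j ^ 2) / 2 := by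
  unfold Ale
  have h := Alt_even j
  unfold Alt at h
  rw [show (2 * j + 1) / 2 = j by omega] at h
  rw [show (2 * j + 2) / 2 = j + 1 by omega, Finset.sum_range_succ, h, Dd_eq _ j (by omega),
    show 2 * j - j = j by omega]
  ring

theorem Alt_odd (j : ℕ) : Alt (2 * j + 1) = 2 * 16 ^ j := by
  unfold Alt
  rw [show (2 * j + 1 + 1) / 2 = j + 1 by omega, ← half_odd j]
  refine Finset.sum_congr rfl fun i hi => ?_
  rw [mem_range] at hi
  rw [Dd_eq _ i (by omega)]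

theorem Ale_odd (j : ℕ) : Ale (2 * j + 1) = 2 * 16 ^ j := by
  rw [← Alt_odd]
  unfold Alt Ale
  rw [show (2 * j + 1 + 1) / 2 = j + 1 by omega, show (2 * j + 1 + 2) / 2 = j + 1 by omega]

/-! ### even order -/

section even

variable (m : ℕ)

theorem term_even (i : ℕ) (h : i < m) :
    γe m (2 * i) * Kr (2 * i) (2 * m - 1 - 2 * i) m = (1 / 4) ^ m / 2 * Dd m i := by
  obtain ⟨r, rfl⟩ := Nat.exists_eq_add_of_lt h
  rw [γe_even, show 2 * (i + r + 1) - 1 - 2 * i = 2 * r + 1 by omega, Kr_half_left, Dd,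
    show i + r + 1 - i = r + 1 by omega]
  ring

/-- `H1 ee`, even order -/
theorem H1ee_even : (G (2 * m) (γe m) m m).coeff m = (1 / 4) ^ m / 2 * Alt m := by
  unfold G
  rw [if_neg (lt_irrefl m), Nat.sub_self, pow_zero, one_mul, finsetSum_coeff]
  have h : ∀ k ∈ range m, (C (γe m k) * ((1 + X) ^ (k + 0) * (1 - X) ^ (2 * m - 1 - k - 0)) : ℚ[X]).coeff m =
      γe m k * Kr k (2 * m - 1 - k) m := by
    intro k _
    rw [coeff_C_mul]; rfl
  rw [Finset.sum_congr rfl h, sum_even_only _ (fun i => by rw [γe_odd, zero_mul]), Alt, Finset.mul_sum]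
  refine Finset.sum_congr rfl fun i hi => ?_
  rw [mem_range] at hi
  exact term_even m i (by omega)

/-- `H2 e2`, even order -/
theorem H2e2_even (hm : 1 ≤ m) :
    (G (2 * m) (γe m) (m + 1) (m + 1)).coeff m = (1 / 4) ^ m / 2 * Ale m := by
  unfold G
  rw [if_neg (lt_irrefl (m + 1)), Nat.sub_self, pow_zero, one_mul, finsetSum_coeff]
  have h : ∀ k ∈ range (m + 1), (C (γe m k) * ((1 + X) ^ (k + 0) * (1 - X) ^ (2 * m - 1 - k - 0)) : ℚ[X]).coeff m =
      γe m k * Kr k (2 * m - 1 - k) m := by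
    intro k _
    rw [coeff_C_mul]; rfl
  rw [Finset.sum_congr rfl h, sum_even_only _ (fun i => by rw [γe_odd, zero_mul]), Ale, Finset.mul_sum]
  refine Finset.sum_congr rfl fun i hi => ?_
  rw [mem_range] at hi
  exact term_even m i (by omega)

/-- `H1 e2`, even order -/
theorem H1e2_even (hm : 1 ≤ m) :
    (G (2 * m) (γe m) m (m + 1)).coeff m = (1 / 4) ^ m / 2 * ∑ i ∈ range ((m + 1) / 2), Ee m i := by
  unfold G
  rw [if_neg (by omega), show m + 1 - m = 1 by omega, pow_one, neg_mul, one_mul, coeff_neg,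
    finsetSum_coeff, ← Finset.sum_neg_distrib]
  have h : ∀ k ∈ range m, -(C (γe m k) * ((1 + X) ^ (k + 1) * (1 - X) ^ (2 * m - 1 - k - 1)) : ℚ[X]).coeff m =
      -(γe m k * Kr (k + 1) (2 * m - 1 - k - 1) m) := by
    intro k _
    rw [coeff_C_mul]; rfl
  rw [Finset.sum_congr rfl h, sum_even_only _ (fun i => by rw [γe_odd, zero_mul, neg_zero]),
    Finset.mul_sum]
  refine Finset.sum_congr rfl fun i hi => ?_
  rw [mem_range] at hi
  obtain ⟨r, rfl⟩ := Nat.exists_eq_add_of_lt (by omega : i < m)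
  rw [γe_even, show 2 * (i + r + 1) - 1 - 2 * i - 1 = 2 * r by omega, Kr_half_right, Ee,
    show i + r + 1 - i = r + 1 by omega, show i + r + 1 - 1 - i = r by omega, pow_succ (-1 : ℚ) r]
  ring

/-- `H2 ee`, even order -/
theorem H2ee_even (hm : 1 ≤ m) :
    (G (2 * m) (γe m) (m + 1) m).coeff m = (1 / 4) ^ m / 2 * (4 ^ m - Ale m) := by
  unfold G
  rw [if_pos (by omega), show m + 1 - 1 - m = 0 by omega, pow_zero, one_mul, finsetSum_coeff]
  have h : ∀ k ∈ Ico (m + 1) (2 * m + 1),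
      (C (γe m k) * ((1 + X) ^ (k + m - (m + 1)) * (1 - X) ^ (2 * m + (m + 1) - 1 - m - k)) : ℚ[X]).coeff m =
      1 / 2 * (γe m k * Kr k (2 * m - k) m) := by
    intro k hk
    rw [mem_Ico] at hk
    rw [coeff_C_mul]
    rcases Nat.even_or_odd' k with ⟨i, rfl | rfl⟩
    · obtain ⟨i, rfl⟩ := Nat.exists_eq_add_of_le' (by omega : 1 ≤ i)
      obtain ⟨r, hr⟩ := Nat.exists_eq_add_of_le (by omega : i + 1 ≤ m)
      have := Kr_half_right i r
      rw [show 2 * (i + 1) + m - (m + 1) = 2 * i + 1 by omega,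
        show 2 * m + (m + 1) - 1 - m - 2 * (i + 1) = 2 * r by omega,
        show 2 * m - 2 * (i + 1) = 2 * r by omega]
      rw [show i + r + 1 = m by omega] at this
      have h2 : ((1 + X) ^ (2 * i + 1) * (1 - X) ^ (2 * r) : ℚ[X]).coeff m = Kr (2 * i + 1) (2 * r) m := rfl
      rw [h2, this]
      ring
    · rw [γe_odd]; ring
  rw [Finset.sum_congr rfl h, ← Finset.mul_sum, Finset.sum_Ico_eq_sub _ (by omega : m + 1 ≤ 2 * m + 1),
    sum_even_only (fun k => γe m k * Kr k (2 * m - k) m) (fun i => by rw [γe_odd, zero_mul]) (2 * m + 1),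
    sum_even_only (fun k => γe m k * Kr k (2 * m - k) m) (fun i => by rw [γe_odd, zero_mul]) (m + 1)]
  rw [show (2 * m + 1 + 1) / 2 = m + 1 by omega, show (m + 1 + 1) / 2 = (m + 2) / 2 by omega]
  have h3 : ∀ i, i ≤ m → γe m (2 * i) * Kr (2 * i) (2 * m - 2 * i) m = (1 / 4) ^ m * Dd m i := by
    intro i hi
    rw [γe_even, Dd, show 2 * m - 2 * i = 2 * (m - i) by omega]
    ring
  rw [Finset.sum_congr rfl (fun i hi => h3 i (by rw [mem_range] at hi; omega)),
    Finset.sum_congr rfl (fun i hi => h3 i (by rw [mem_range] at hi; omega)), ← Finset.mul_sum,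
    ← Finset.mul_sum, sum_Dd, Ale]
  ring

end even

/-! ### odd order -/

section odd

variable (m : ℕ)

theorem Kr_odd_zero (i : ℕ) (h : 2 * i + 1 ≤ 2 * m) : Kr (2 * i + 1) (2 * m - (2 * i + 1)) m = 0 := by
  obtain ⟨r, rfl⟩ := Nat.exists_eq_add_of_lt (by omega : i < m)
  rw [show 2 * (i + r + 1) - (2 * i + 1) = 2 * r + 1 by omega, Kr_mid_odd]

theorem sum_even_only'' (f : ℕ → ℚ) (K : ℕ) (h : ∀ i, 2 * i + 1 < K → f (2 * i + 1) = 0) :
    ∑ k ∈ range K, f k = ∑ i ∈ range ((K + 1) / 2), f (2 * i) := by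
  have h1 := sum_even_only (fun k => if k < K then f k else 0) (fun i => by
    by_cases h2 : 2 * i + 1 < K
    · simp only [if_pos h2, h i h2]
    · simp only [if_neg h2]) K
  rw [Finset.sum_congr rfl (fun k hk => (if_pos (mem_range.mp hk)).symm :
    ∀ k ∈ range K, f k = if k < K then f k else 0), h1]
  refine Finset.sum_congr rfl fun i hi => ?_
  rw [mem_range] at hi
  rw [if_pos (by omega)]

theorem sum_odd_only'' (f : ℕ → ℚ) (K : ℕ) (h : ∀ i, 2 * i < K → f (2 * i) = 0) :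
    ∑ k ∈ range K, f k = ∑ i ∈ range (K / 2), f (2 * i + 1) := by
  have h1 := sum_odd_only (fun k => if k < K then f k else 0) (fun i => by
    by_cases h2 : 2 * i < K
    · simp only [if_pos h2, h i h2]
    · simp only [if_neg h2]) K
  rw [Finset.sum_congr rfl (fun k hk => (if_pos (mem_range.mp hk)).symm :
    ∀ k ∈ range K, f k = if k < K then f k else 0), h1]
  refine Finset.sum_congr rfl fun i hi => ?_
  rw [mem_range] at hi
  rw [if_pos (by omega)]

theorem term_odd (i : ℕ) (_h : i ≤ m) :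
    γo m (2 * i) * Kr (2 * i) (2 * m - 2 * i) m = (1 / 4) ^ m / 2 * Dd m i := by
  rw [γo_even, Dd, show 2 * m - 2 * i = 2 * (m - i) by omega]
  ring

theorem term_odd' (i : ℕ) (_h : i ≤ m) :
    γo m (2 * i + 1) * Kr (2 * i) (2 * m - 2 * i) m = (1 / 4) ^ m / 2 * Dd m i := by
  rw [γo_odd, Dd, show 2 * m - 2 * i = 2 * (m - i) by omega]
  ring

/-- `H1 ee`, odd order -/
theorem H1ee_odd : (G (2 * m + 1) (γo m) m m).coeff m = (1 / 4) ^ m / 2 * Alt m := by
  unfold G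
  rw [if_neg (lt_irrefl m), Nat.sub_self, pow_zero, one_mul, finsetSum_coeff]
  have h : ∀ k ∈ range m, (C (γo m k) * ((1 + X) ^ (k + 0) * (1 - X) ^ (2 * m + 1 - 1 - k - 0)) : ℚ[X]).coeff m =
      γo m k * Kr k (2 * m - k) m := by
    intro k _
    rw [coeff_C_mul]; rfl
  rw [Finset.sum_congr rfl h, sum_even_only'' _ _ (fun i hi => by
    rw [Kr_odd_zero m i (by omega), mul_zero]), Alt, Finset.mul_sum]
  refine Finset.sum_congr rfl fun i hi => ?_
  rw [mem_range] at hi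
  exact term_odd m i (by omega)

/-- `H2 e2`, odd order -/
theorem H2e2_odd :
    (G (2 * m + 1) (γo m) (m + 1) (m + 1)).coeff m = (1 / 4) ^ m / 2 * Ale m := by
  unfold G
  rw [if_neg (lt_irrefl (m + 1)), Nat.sub_self, pow_zero, one_mul, finsetSum_coeff]
  have h : ∀ k ∈ range (m + 1), (C (γo m k) * ((1 + X) ^ (k + 0) * (1 - X) ^ (2 * m + 1 - 1 - k - 0)) : ℚ[X]).coeff m =
      γo m k * Kr k (2 * m - k) m := by
    intro k _
    rw [coeff_C_mul]; rfl
  rw [Finset.sum_congr rfl h, sum_even_only'' _ _ (fun i hi => by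
    rw [Kr_odd_zero m i (by omega), mul_zero]), Ale, Finset.mul_sum]
  refine Finset.sum_congr rfl fun i hi => ?_
  rw [mem_range] at hi
  exact term_odd m i (by omega)

/-- `H1 e2`, odd order -/
theorem H1e2_odd :
    (G (2 * m + 1) (γo m) m (m + 1)).coeff m = (1 / 4) ^ m / 2 * ∑ i ∈ range (m / 2), Ee m i := by
  unfold G
  rw [if_neg (by omega), show m + 1 - m = 1 by omega, pow_one, neg_mul, one_mul, coeff_neg,
    finsetSum_coeff, ← Finset.sum_neg_distrib]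
  have h : ∀ k ∈ range m, -(C (γo m k) * ((1 + X) ^ (k + 1) * (1 - X) ^ (2 * m + 1 - 1 - k - 1)) : ℚ[X]).coeff m =
      -(γo m k * Kr (k + 1) (2 * m - (k + 1)) m) := by
    intro k _
    rw [coeff_C_mul, show 2 * m + 1 - 1 - k - 1 = 2 * m - (k + 1) by omega]; rfl
  rw [Finset.sum_congr rfl h, sum_odd_only'' _ _ (fun i hi => by
    rw [Kr_odd_zero m i (by omega), mul_zero, neg_zero]), Finset.mul_sum]
  refine Finset.sum_congr rfl fun i hi => ?_
  rw [mem_range] at hi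
  obtain ⟨r, rfl⟩ := Nat.exists_eq_add_of_lt (by omega : i < m)
  rw [γo_odd, show 2 * (i + r + 1) - (2 * i + 1 + 1) = 2 * r by omega, Ee,
    show i + r + 1 - i = r + 1 by omega, show i + r + 1 - 1 - i = r by omega, pow_succ (-1 : ℚ) r,
    show 2 * i + 1 + 1 = 2 * (i + 1) by ring]
  ring

/-- `H2 ee`, odd order -/
theorem H2ee_odd :
    (G (2 * m + 1) (γo m) (m + 1) m).coeff m = (1 / 4) ^ m / 2 * (4 ^ m - Alt m) := by
  unfold G
  rw [if_pos (by omega), show m + 1 - 1 - m = 0 by omega, pow_zero, one_mul, finsetSum_coeff]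
  rw [← Finset.sum_Ico_add' _ m (2 * m + 1) 1]
  have h : ∀ k ∈ Ico m (2 * m + 1),
      (C (γo m (k + 1)) * ((1 + X) ^ (k + 1 + m - (m + 1)) *
        (1 - X) ^ (2 * m + 1 + (m + 1) - 1 - m - (k + 1))) : ℚ[X]).coeff m =
      γo m (k + 1) * Kr k (2 * m - k) m := by
    intro k hk
    rw [mem_Ico] at hk
    rw [coeff_C_mul, show k + 1 + m - (m + 1) = k by omega,
      show 2 * m + 1 + (m + 1) - 1 - m - (k + 1) = 2 * m - k by omega]
    rfl
  rw [Finset.sum_congr rfl h, Finset.sum_Ico_eq_sub _ (by omega : m ≤ 2 * m + 1),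
    sum_even_only'' (fun k => γo m (k + 1) * Kr k (2 * m - k) m) (2 * m + 1) (fun i hi => by
      rw [Kr_odd_zero m i (by omega), mul_zero]),
    sum_even_only'' (fun k => γo m (k + 1) * Kr k (2 * m - k) m) m (fun i hi => by
      rw [Kr_odd_zero m i (by omega), mul_zero])]
  rw [Finset.sum_congr rfl (fun i hi => term_odd' m i (by rw [mem_range] at hi; omega)),
    Finset.sum_congr rfl (fun i hi => term_odd' m i (by rw [mem_range] at hi; omega)), ← Finset.mul_sum,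
    ← Finset.mul_sum, show (2 * m + 1 + 1) / 2 = m + 1 by omega, sum_Dd, Alt]
  ring

end odd

/-! ### the value of the combination which counts the tilings -/

/-- the combination of the four entries -/
def val (h1e2 h1ee h2e2 h2ee : ℚ) : ℚ := h1e2 * (1 - 2 * h2ee) + 2 * (h2e2 * h1ee)

theorem q16 (j : ℕ) : (1 / 4 : ℚ) ^ (2 * j) = 1 / 16 ^ j := by
  rw [pow_mul, show ((1 / 4 : ℚ) ^ 2) = 1 / 16 by norm_num, one_div_pow]

/-- order `4 j` -/
theorem val0 (j : ℕ) (hj : 1 ≤ j) :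
    val ((G (2 * (2 * j)) (γe (2 * j)) (2 * j) (2 * j + 1)).coeff (2 * j))
      ((G (2 * (2 * j)) (γe (2 * j)) (2 * j) (2 * j)).coeff (2 * j))
      ((G (2 * (2 * j)) (γe (2 * j)) (2 * j + 1) (2 * j + 1)).coeff (2 * j))
      ((G (2 * (2 * j)) (γe (2 * j)) (2 * j + 1) (2 * j)).coeff (2 * j)) =
    j * cb j ^ 2 * (16 ^ j + cb j ^ 2) / (2 * 16 ^ (2 * j)) := by
  rw [H1e2_even _ (by omega), H1ee_even, H2e2_even _ (by omega), H2ee_even _ (by omega),
    show (2 * j + 1) / 2 = j by omega, sum_Ee_even j hj, Alt_even, Ale_even, q16, pow_mul 4 2 j,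
    mul_comm 2 j, pow_mul 16 j 2]
  unfold val
  have h16 : (16 : ℚ) ^ j ≠ 0 := by positivity
  norm_num
  field_simp
  ring

/-- order `4 j + 2` -/
theorem val2 (j : ℕ) :
    val ((G (2 * (2 * j + 1)) (γe (2 * j + 1)) (2 * j + 1) (2 * j + 1 + 1)).coeff (2 * j + 1))
      ((G (2 * (2 * j + 1)) (γe (2 * j + 1)) (2 * j + 1) (2 * j + 1)).coeff (2 * j + 1))
      ((G (2 * (2 * j + 1)) (γe (2 * j + 1)) (2 * j + 1 + 1) (2 * j + 1 + 1)).coeff (2 * j + 1))
      ((G (2 * (2 * j + 1)) (γe (2 * j + 1)) (2 * j + 1 + 1) (2 * j + 1)).coeff (2 * j + 1)) =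
    (2 * j + 1) * cb j ^ 2 / (4 * 16 ^ j) := by
  rw [H1e2_even _ (by omega), H1ee_even, H2e2_even _ (by omega), H2ee_even _ (by omega),
    show (2 * j + 1 + 1) / 2 = j + 1 by omega, sum_Ee_odd_succ j, Alt_odd, Ale_odd,
    pow_succ (1 / 4 : ℚ), q16, pow_succ (4 : ℚ), pow_mul 4 2 j]
  unfold val
  have h16 : (16 : ℚ) ^ j ≠ 0 := by positivity
  norm_num
  field_simp
  ring

/-- order `4 j + 1` -/
theorem val1 (j : ℕ) (hj : 1 ≤ j) :
    val ((G (2 * (2 * j) + 1) (γo (2 * j)) (2 * j) (2 * j + 1)).coeff (2 * j))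
      ((G (2 * (2 * j) + 1) (γo (2 * j)) (2 * j) (2 * j)).coeff (2 * j))
      ((G (2 * (2 * j) + 1) (γo (2 * j)) (2 * j + 1) (2 * j + 1)).coeff (2 * j))
      ((G (2 * (2 * j) + 1) (γo (2 * j)) (2 * j + 1) (2 * j)).coeff (2 * j)) =
    (2 * j + 1) * cb j ^ 2 * (16 ^ j - cb j ^ 2) / (4 * 16 ^ (2 * j)) := by
  rw [H1e2_odd, H1ee_odd, H2e2_odd, H2ee_odd,
    show (2 * j) / 2 = j by omega, sum_Ee_even j hj, Alt_even, Ale_even, q16, pow_mul 4 2 j,
    mul_comm 2 j, pow_mul 16 j 2]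
  unfold val
  have h16 : (16 : ℚ) ^ j ≠ 0 := by positivity
  norm_num
  field_simp
  ring

/-- order `4 j + 3` -/
theorem val3 (j : ℕ) :
    val ((G (2 * (2 * j + 1) + 1) (γo (2 * j + 1)) (2 * j + 1) (2 * j + 1 + 1)).coeff (2 * j + 1))
      ((G (2 * (2 * j + 1) + 1) (γo (2 * j + 1)) (2 * j + 1) (2 * j + 1)).coeff (2 * j + 1))
      ((G (2 * (2 * j + 1) + 1) (γo (2 * j + 1)) (2 * j + 1 + 1) (2 * j + 1 + 1)).coeff (2 * j + 1))
      ((G (2 * (2 * j + 1) + 1) (γo (2 * j + 1)) (2 * j + 1 + 1) (2 * j + 1)).coeff (2 * j + 1)) =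
    (j + 1) * cb (j + 1) ^ 2 / (32 * 16 ^ j) := by
  have h0 := sum_Ee_odd j
  have h1 : ((j : ℚ) + 1) ≠ 0 := by positivity
  have h2 : ∑ i ∈ range j, Ee (2 * j + 1) i =
      (2 * (2 * j + 1) ^ 2 * cb j ^ 2 - 2 * (j + 1) * 16 ^ j) / (j + 1) := by
    rw [eq_div_iff h1, mul_comm, h0]
  rw [H1e2_odd, H1ee_odd, H2e2_odd, H2ee_odd,
    show (2 * j + 1) / 2 = j by omega, h2, Alt_odd, Ale_odd,
    pow_succ (1 / 4 : ℚ), q16, pow_succ (4 : ℚ), pow_mul 4 2 j]
  unfold val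
  have h16 : (16 : ℚ) ^ j ≠ 0 := by positivity
  have h3 := cb_succ j
  have h4 : cb (j + 1) = 2 * (2 * j + 1) * cb j / (j + 1) := by
    rw [eq_div_iff h1, mul_comm, h3]
  rw [h4]
  norm_num
  field_simp
  ring

end Pool.Agent.L5helper31.Aztec
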