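import Pool.Agent.L5helper31.AztecRegion
import Pool.Agent.L5helper31.AztecGreen

/-!
The Kasteleyn matrix of the Aztec diamond with two cells a knight's move apart removed.
-/

namespace Pool.Agent.L5helper31.Aztec

open Finset Pool.Agent.Helper848
open Pool.Agent.Helper848.AztecDet (K0 E O)

theorem npc {a b : ℕ} (h : a % 2 = b % 2) : (-1 : ℤ) ^ a = (-1) ^ b := by
  rw [neg_one_pow_eq_pow_mod_two a, neg_one_pow_eq_pow_mod_two b, h]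

/-- integer version of the Kasteleyn matrix -/
def K0z (n : ℕ) (o : O n) (x : E n) : ℤ :=
  (if (x.1 : ℕ) = o.1 + 1 then (1 : ℤ) else 0) *
    ((if (x.2 : ℕ) = o.2 then 1 else 0) - (if (x.2 : ℕ) + 1 = o.2 then 1 else 0)) +
  (if (x.1 : ℕ) = o.1 then (1 : ℤ) else 0) *
    ((if (x.2 : ℕ) = o.2 then 1 else 0) + (if (x.2 : ℕ) + 1 = o.2 then 1 else 0))

theorem K0z_cast (n : ℕ) (o : O n) (x : E n) : ((K0z n o x : ℤ) : ℚ) = K0 n o x := by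
  unfold K0z K0
  simp

/-- cells, even order -/
def fe (n : ℕ) (x : E n) : ℤ × ℤ := ((x.1 : ℤ) - x.2 - 1, (x.1 : ℤ) + x.2 - n)
/-- cells, even order -/
def ge (n : ℕ) (o : O n) : ℤ × ℤ := ((o.1 : ℤ) - o.2, (o.1 : ℤ) + o.2 - n)
/-- cells, odd order -/
def fo (n : ℕ) (x : E n) : ℤ × ℤ := ((x.2 : ℤ) - x.1, (n : ℤ) - 1 - x.1 - x.2)
/-- cells, odd order -/
def go (n : ℕ) (o : O n) : ℤ × ℤ := ((o.2 : ℤ) - o.1 - 1, (n : ℤ) - 1 - o.1 - o.2)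

/-- gauge exponents, even order -/
def aE (n : ℕ) (o : O n) : ℕ :=
  (if 2 * (o.2 : ℕ) = n ∧ n ≤ 2 * (o.1 : ℕ) then 1 else 0) + (if n < 2 * (o.2 : ℕ) then 1 else 0)
/-- gauge exponents, even order -/
def bE (n : ℕ) (x : E n) : ℕ :=
  (if 2 * (x.2 : ℕ) = n ∧ 2 * (x.1 : ℕ) ≤ n then 1 else 0) + (if n ≤ 2 * (x.2 : ℕ) then 1 else 0)

/-- gauge exponents, odd order -/
def aO (n : ℕ) (o : O n) : ℕ :=
  (o.1 : ℕ) + (if 2 * (o.2 : ℕ) < n then 1 else 0)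
/-- gauge exponents, odd order -/
def bO (n : ℕ) (x : E n) : ℕ :=
  (x.1 : ℕ) + (if 2 * (x.2 : ℕ) + 1 < n then 1 else 0)

theorem fe_mem (n : ℕ) (x : E n) : fe n x ∈ aztec n := by
  obtain ⟨⟨s, hs⟩, ⟨t, ht⟩⟩ := x
  rw [mem_aztec]
  simp only [fe]
  omega

theorem ge_mem (n : ℕ) (x : O n) : ge n x ∈ aztec n := by
  obtain ⟨⟨s, hs⟩, ⟨t, ht⟩⟩ := x
  rw [mem_aztec]
  simp only [ge]
  omega

theorem fo_mem (n : ℕ) (x : E n) : fo n x ∈ aztec n := by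
  obtain ⟨⟨s, hs⟩, ⟨t, ht⟩⟩ := x
  rw [mem_aztec]
  simp only [fo]
  omega

theorem go_mem (n : ℕ) (x : O n) : go n x ∈ aztec n := by
  obtain ⟨⟨s, hs⟩, ⟨t, ht⟩⟩ := x
  rw [mem_aztec]
  simp only [go]
  omega

theorem kast_even (n : ℕ) (R : Finset (ℤ × ℤ)) (o : O n) (x : E n) :
    kast R (ge n o) (fe n x) =
      if (((x.1 : ℕ) = o.1 + 1 ∨ (x.1 : ℕ) = o.1) ∧ ((x.2 : ℕ) = o.2 ∨ (x.2 : ℕ) + 1 = o.2)) then
        (if (x.2 : ℕ) + 1 = o.2 then (-1) ^ (above R (fe n x) + below R (ge n o)) else 1) else 0 := by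
  unfold kast
  refine if_congr ?_ (if_congr ?_ rfl rfl) rfl
  · unfold Adj fe ge
    simp only
    omega
  · simp only [fe, ge]
    omega

theorem kast_odd (n : ℕ) (R : Finset (ℤ × ℤ)) (o : O n) (x : E n) :
    kast R (go n o) (fo n x) =
      if (((x.1 : ℕ) = o.1 + 1 ∨ (x.1 : ℕ) = o.1) ∧ ((x.2 : ℕ) = o.2 ∨ (x.2 : ℕ) + 1 = o.2)) then
        (if (x.2 : ℕ) = o.2 then (-1) ^ (above R (fo n x) + below R (go n o)) else 1) else 0 := by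
  unfold kast
  refine if_congr ?_ (if_congr ?_ rfl rfl) rfl
  · unfold Adj fo go
    simp only
    omega
  · simp only [fo, go]
    omega

theorem above_knight' (n : ℕ) (hn : 2 ≤ n) (w1 w2 : ℤ) (hw : (w1, w2) ∈ aztec n) :
    above (knightRegion n) (w1, w2) + (if w2 = w1 ∧ w1 < -1 then 1 else 0) +
      (if w2 = w1 + 1 ∧ w1 < 0 then 1 else 0) = (((n : ℤ) - (w1 + w2 + 1)) / 2).toNat :=
  above_knight n hn (w1, w2) hw

theorem below_knight' (n : ℕ) (hn : 2 ≤ n) (b1 b2 : ℤ) (hb : (b1, b2) ∈ aztec n) :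
    below (knightRegion n) (b1, b2) + (if b2 = b1 ∧ -1 < b1 then 1 else 0) +
      (if b2 = b1 + 1 ∧ 0 < b1 then 1 else 0) = (((n : ℤ) + (b1 + b2 + 1)) / 2).toNat :=
  below_knight n hn (b1, b2) hb

theorem above_fe (m : ℕ) (hm : 1 ≤ m) (x : E (2 * m)) :
    above (knightRegion (2 * m)) (fe (2 * m) x) +
      (if (x.2 : ℕ) = m ∧ (x.1 : ℕ) ≤ m then 1 else 0) = 2 * m - x.1 := by
  have hA := above_knight' (2 * m) (by omega) _ _ (fe_mem (2 * m) x)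
  obtain ⟨⟨s, hs⟩, ⟨t, ht⟩⟩ := x
  simp only [fe] at hA ⊢
  generalize above (knightRegion (2 * m)) ((s : ℤ) - t - 1, (s : ℤ) + t - (2 * m : ℕ)) = A at hA ⊢
  split_ifs at hA ⊢ <;> omega

theorem below_ge (m : ℕ) (hm : 1 ≤ m) (o : O (2 * m)) :
    below (knightRegion (2 * m)) (ge (2 * m) o) +
      (if (o.2 : ℕ) = m ∧ m ≤ (o.1 : ℕ) then 1 else 0) = o.1 := by
  have hB := below_knight' (2 * m) (by omega) _ _ (ge_mem (2 * m) o)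
  obtain ⟨⟨a, ha⟩, ⟨b, hb⟩⟩ := o
  simp only [ge] at hB ⊢
  generalize below (knightRegion (2 * m)) ((a : ℤ) - b, (a : ℤ) + b - (2 * m : ℕ)) = B at hB ⊢
  split_ifs at hB ⊢ <;> omega

theorem above_fo (m : ℕ) (hm : 1 ≤ m) (x : E (2 * m + 1)) :
    above (knightRegion (2 * m + 1)) (fo (2 * m + 1) x) +
      (if (x.2 : ℕ) = m ∧ m + 1 < (x.1 : ℕ) then 1 else 0) = x.1 := by
  have hA := above_knight' (2 * m + 1) (by omega) _ _ (fo_mem (2 * m + 1) x)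
  obtain ⟨⟨s, hs⟩, ⟨t, ht⟩⟩ := x
  simp only [fo] at hA ⊢
  generalize above (knightRegion (2 * m + 1)) ((t : ℤ) - s, ((2 * m + 1 : ℕ) : ℤ) - 1 - s - t) = A at hA ⊢
  split_ifs at hA ⊢ <;> omega

theorem below_go (m : ℕ) (hm : 1 ≤ m) (o : O (2 * m + 1)) :
    below (knightRegion (2 * m + 1)) (go (2 * m + 1) o) +
      (if (o.2 : ℕ) = m ∧ (o.1 : ℕ) + 1 < m then 1 else 0) = 2 * m - o.1 := by
  have hB := below_knight' (2 * m + 1) (by omega) _ _ (go_mem (2 * m + 1) o)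
  obtain ⟨⟨a, ha⟩, ⟨b, hb⟩⟩ := o
  simp only [go] at hB ⊢
  generalize below (knightRegion (2 * m + 1)) ((b : ℤ) - a - 1, ((2 * m + 1 : ℕ) : ℤ) - 1 - a - b) = B at hB ⊢
  split_ifs at hB ⊢ <;> omega

theorem sgn0 {N : ℕ} (h : N % 2 = 0) : (-1 : ℤ) ^ N = 1 := by
  rw [neg_one_pow_eq_pow_mod_two, h, pow_zero]

theorem sgn1 {N : ℕ} (h : N % 2 = 1) : (-1 : ℤ) ^ N = -1 := by
  rw [neg_one_pow_eq_pow_mod_two, h, pow_one]

theorem K0z_00 (n : ℕ) (o : O n) (x : E n) (h1 : (x.1 : ℕ) = o.1 + 1) (h2 : (x.2 : ℕ) = o.2) :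
    K0z n o x = 1 := by
  unfold K0z
  rw [if_pos h1, if_pos h2, if_neg (by omega), if_neg (by omega)]
  norm_num

theorem K0z_01 (n : ℕ) (o : O n) (x : E n) (h1 : (x.1 : ℕ) = o.1 + 1) (h2 : (x.2 : ℕ) + 1 = o.2) :
    K0z n o x = -1 := by
  unfold K0z
  rw [if_pos h1, if_neg (by omega), if_pos h2, if_neg (by omega)]
  norm_num

theorem K0z_10 (n : ℕ) (o : O n) (x : E n) (h1 : (x.1 : ℕ) = o.1) (h2 : (x.2 : ℕ) = o.2) :
    K0z n o x = 1 := by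
  unfold K0z
  rw [if_neg (by omega), if_pos h1, if_pos h2, if_neg (by omega)]
  norm_num

theorem K0z_11 (n : ℕ) (o : O n) (x : E n) (h1 : (x.1 : ℕ) = o.1) (h2 : (x.2 : ℕ) + 1 = o.2) :
    K0z n o x = 1 := by
  unfold K0z
  rw [if_neg (by omega), if_pos h1, if_pos h2, if_neg (by omega)]
  norm_num

theorem K0z_zero (n : ℕ) (o : O n) (x : E n)
    (h : ¬ (((x.1 : ℕ) = o.1 + 1 ∨ (x.1 : ℕ) = o.1) ∧ ((x.2 : ℕ) = o.2 ∨ (x.2 : ℕ) + 1 = o.2))) :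
    K0z n o x = 0 := by
  unfold K0z
  split_ifs <;> first | omega | norm_num

theorem gauge_even (m : ℕ) (hm : 1 ≤ m) (o : O (2 * m)) (x : E (2 * m))
    (ho : ¬ ((o.1 : ℕ) + 1 = m ∧ (o.2 : ℕ) = m)) (hx : ¬ ((x.1 : ℕ) = m + 1 ∧ (x.2 : ℕ) = m)) :
    (-1 : ℤ) ^ (aE (2 * m) o) * (-1) ^ (bE (2 * m) x) *
        kast (knightRegion (2 * m)) (ge (2 * m) o) (fe (2 * m) x) =
      if ((o.1 : ℕ) = m ∧ (o.2 : ℕ) = m) ∧ ((x.1 : ℕ) = m ∧ (x.2 : ℕ) = m) then -1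
      else K0z (2 * m) o x := by
  have hA := above_fe m hm x
  have hB := below_ge m hm o
  have hs := x.1.2
  have ht := x.2.2
  have ha := o.1.2
  have hb := o.2.2
  have eA : aE (2 * m) o = (if (o.2 : ℕ) = m ∧ m ≤ (o.1 : ℕ) then 1 else 0) +
      (if m < (o.2 : ℕ) then 1 else 0) := by
    unfold aE
    congr 1
    · exact if_congr (by omega) rfl rfl
    · exact if_congr (by omega) rfl rfl
  have eB : bE (2 * m) x = (if (x.2 : ℕ) = m ∧ (x.1 : ℕ) ≤ m then 1 else 0) +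
      (if m ≤ (x.2 : ℕ) then 1 else 0) := by
    unfold bE
    congr 1
    · exact if_congr (by omega) rfl rfl
    · exact if_congr (by omega) rfl rfl
  rw [kast_even, eA, eB]
  by_cases hadj : ((x.1 : ℕ) = o.1 + 1 ∨ (x.1 : ℕ) = o.1) ∧ ((x.2 : ℕ) = o.2 ∨ (x.2 : ℕ) + 1 = o.2)
  · rw [if_pos hadj]
    obtain ⟨h1 | h1, h2 | h2⟩ := hadj
    · rw [K0z_00 _ _ _ h1 h2, if_neg (by omega : ¬ (x.2 : ℕ) + 1 = o.2), mul_one, ← pow_add,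
        if_neg (c := _ ∧ _) (by omega : ¬ (((o.1 : ℕ) = m ∧ (o.2 : ℕ) = m) ∧ ((x.1 : ℕ) = m ∧ (x.2 : ℕ) = m)))]
      apply sgn0
      split_ifs <;> omega
    · rw [K0z_01 _ _ _ h1 h2, if_pos h2, ← pow_add, ← pow_add,
        if_neg (c := _ ∧ _) (by omega : ¬ (((o.1 : ℕ) = m ∧ (o.2 : ℕ) = m) ∧ ((x.1 : ℕ) = m ∧ (x.2 : ℕ) = m)))]
      apply sgn1
      split_ifs at hA hB ⊢ <;> omega
    · rw [K0z_10 _ _ _ h1 h2, if_neg (by omega : ¬ (x.2 : ℕ) + 1 = o.2), mul_one, ← pow_add]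
      by_cases h : ((o.1 : ℕ) = m ∧ (o.2 : ℕ) = m) ∧ ((x.1 : ℕ) = m ∧ (x.2 : ℕ) = m)
      · rw [if_pos h]
        apply sgn1
        split_ifs <;> omega
      · rw [if_neg h]
        apply sgn0
        split_ifs <;> omega
    · rw [K0z_11 _ _ _ h1 h2, if_pos h2, ← pow_add, ← pow_add,
        if_neg (c := _ ∧ _) (by omega : ¬ (((o.1 : ℕ) = m ∧ (o.2 : ℕ) = m) ∧ ((x.1 : ℕ) = m ∧ (x.2 : ℕ) = m)))]
      apply sgn0
      split_ifs at hA hB ⊢ <;> omega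
  · rw [if_neg hadj, mul_zero, K0z_zero _ _ _ hadj, if_neg (by omega)]

theorem gauge_odd (m : ℕ) (hm : 1 ≤ m) (o : O (2 * m + 1)) (x : E (2 * m + 1))
    (ho : ¬ ((o.1 : ℕ) + 1 = m ∧ (o.2 : ℕ) = m)) (hx : ¬ ((x.1 : ℕ) = m + 1 ∧ (x.2 : ℕ) = m)) :
    (-1 : ℤ) ^ (aO (2 * m + 1) o) * (-1) ^ (bO (2 * m + 1) x) *
        kast (knightRegion (2 * m + 1)) (go (2 * m + 1) o) (fo (2 * m + 1) x) =
      if ((o.1 : ℕ) = m ∧ (o.2 : ℕ) = m) ∧ ((x.1 : ℕ) = m ∧ (x.2 : ℕ) = m) then -1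
      else K0z (2 * m + 1) o x := by
  have hA := above_fo m hm x
  have hB := below_go m hm o
  have hs := x.1.2
  have ht := x.2.2
  have ha := o.1.2
  have hb := o.2.2
  have eA : aO (2 * m + 1) o = (o.1 : ℕ) + (if (o.2 : ℕ) ≤ m then 1 else 0) := by
    unfold aO
    congr 1
    exact if_congr (by omega) rfl rfl
  have eB : bO (2 * m + 1) x = (x.1 : ℕ) + (if (x.2 : ℕ) < m then 1 else 0) := by
    unfold bO
    congr 1
    exact if_congr (by omega) rfl rfl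
  rw [kast_odd, eA, eB]
  by_cases hadj : ((x.1 : ℕ) = o.1 + 1 ∨ (x.1 : ℕ) = o.1) ∧ ((x.2 : ℕ) = o.2 ∨ (x.2 : ℕ) + 1 = o.2)
  · rw [if_pos hadj]
    obtain ⟨h1 | h1, h2 | h2⟩ := hadj
    · rw [K0z_00 _ _ _ h1 h2, if_pos h2, ← pow_add, ← pow_add,
        if_neg (c := _ ∧ _) (by omega : ¬ (((o.1 : ℕ) = m ∧ (o.2 : ℕ) = m) ∧ ((x.1 : ℕ) = m ∧ (x.2 : ℕ) = m)))]
      apply sgn0
      split_ifs at hA hB ⊢ <;> omega
    · rw [K0z_01 _ _ _ h1 h2, if_neg (by omega : ¬ (x.2 : ℕ) = o.2), mul_one, ← pow_add,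
        if_neg (c := _ ∧ _) (by omega : ¬ (((o.1 : ℕ) = m ∧ (o.2 : ℕ) = m) ∧ ((x.1 : ℕ) = m ∧ (x.2 : ℕ) = m)))]
      apply sgn1
      split_ifs <;> omega
    · rw [K0z_10 _ _ _ h1 h2, if_pos h2, ← pow_add, ← pow_add]
      by_cases h : ((o.1 : ℕ) = m ∧ (o.2 : ℕ) = m) ∧ ((x.1 : ℕ) = m ∧ (x.2 : ℕ) = m)
      · rw [if_pos h]
        apply sgn1
        split_ifs at hA hB ⊢ <;> omega
      · rw [if_neg h]
        apply sgn0
        split_ifs at hA hB ⊢ <;> omega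
    · rw [K0z_11 _ _ _ h1 h2, if_neg (by omega : ¬ (x.2 : ℕ) = o.2), mul_one, ← pow_add,
        if_neg (c := _ ∧ _) (by omega : ¬ (((o.1 : ℕ) = m ∧ (o.2 : ℕ) = m) ∧ ((x.1 : ℕ) = m ∧ (x.2 : ℕ) = m)))]
      apply sgn0
      split_ifs <;> omega
  · rw [if_neg hadj, mul_zero, K0z_zero _ _ _ hadj, if_neg (by omega)]

end Pool.Agent.L5helper31.Aztec
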