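import Pool.Agent.L5helper31.AztecCount

/-!
The number of domino tilings of the Aztec diamond with two cells a knight's move apart removed, in
terms of four entries of the Green function.
-/

namespace Pool.Agent.L5helper31.Aztec

open Finset Polynomial Pool.Agent.Helper848
open Pool.Agent.Helper848.AztecDet (K0 E O G K0_G abs_det_K0 abs_det_minor)

theorem count_gen (n m : ℕ) (hm : 1 ≤ m) (hn : 2 * m ≤ n) (f : E n → ℤ × ℤ) (g : O n → ℤ × ℤ)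
    (hf : Function.Injective f) (hg : Function.Injective g)
    (hfR : ∀ p, (∃ x : E n, ¬ ((x.1 : ℕ) = m + 1 ∧ (x.2 : ℕ) = m) ∧ f x = p) ↔
      p ∈ knightRegion n ∧ Even (p.1 + p.2 + ((n : ℤ) + 1)))
    (hgR : ∀ p, (∃ o : O n, ¬ ((o.1 : ℕ) + 1 = m ∧ (o.2 : ℕ) = m) ∧ g o = p) ↔
      p ∈ knightRegion n ∧ ¬ Even (p.1 + p.2 + ((n : ℤ) + 1)))
    (a : O n → ℕ) (b : E n → ℕ)
    (hgauge : ∀ (o : O n) (x : E n), ¬ ((o.1 : ℕ) + 1 = m ∧ (o.2 : ℕ) = m) →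
      ¬ ((x.1 : ℕ) = m + 1 ∧ (x.2 : ℕ) = m) →
      (-1 : ℤ) ^ (a o) * (-1) ^ (b x) * kast (knightRegion n) (g o) (f x) =
        if ((o.1 : ℕ) = m ∧ (o.2 : ℕ) = m) ∧ ((x.1 : ℕ) = m ∧ (x.2 : ℕ) = m) then -1
        else K0z n o x)
    (γ : ℕ → ℚ)
    (hγ : ∑ k ∈ Finset.range (n + 1), C (γ k) * ((1 + X) ^ k * (1 - X) ^ (n - k) : ℚ[X]) = X ^ m) :
    (numTilings (knightRegion n) : ℚ) = 2 ^ (n * (n + 1) / 2) *
      |val ((G n γ m (m + 1)).coeff m) ((G n γ m m).coeff m) ((G n γ (m + 1) (m + 1)).coeff m)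
        ((G n γ (m + 1) m).coeff m)| := by
  classical
  let e2 : E n := (⟨m + 1, by omega⟩, ⟨m, by omega⟩)
  let ee : E n := (⟨m, by omega⟩, ⟨m, by omega⟩)
  let o1 : O n := (⟨m - 1, by omega⟩, ⟨m, by omega⟩)
  let oe : O n := (⟨m, by omega⟩, ⟨m, by omega⟩)
  have he2 : ∀ x : E n, x = e2 ↔ ((x.1 : ℕ) = m + 1 ∧ (x.2 : ℕ) = m) := by
    intro x
    rw [Prod.ext_iff, Fin.ext_iff, Fin.ext_iff]
  have hee : ∀ x : E n, x = ee ↔ ((x.1 : ℕ) = m ∧ (x.2 : ℕ) = m) := by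
    intro x
    rw [Prod.ext_iff, Fin.ext_iff, Fin.ext_iff]
  have hoe : ∀ x : O n, x = oe ↔ ((x.1 : ℕ) = m ∧ (x.2 : ℕ) = m) := by
    intro x
    rw [Prod.ext_iff, Fin.ext_iff, Fin.ext_iff]
  have ho1 : ∀ x : O n, x = o1 ↔ ((x.1 : ℕ) + 1 = m ∧ (x.2 : ℕ) = m) := by
    intro x
    rw [Prod.ext_iff, Fin.ext_iff, Fin.ext_iff]
    simp only [o1]
    omega
  have hcard : Fintype.card {x : E n // x ≠ e2} = Fintype.card {o : O n // o ≠ o1} := by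
    rw [Fintype.card_subtype_compl, Fintype.card_subtype_compl]
    simp [mul_comm]
  let φ : {x : E n // x ≠ e2} ≃ {o : O n // o ≠ o1} := Fintype.equivOfCardEq hcard
  let M : Matrix {x : E n // x ≠ e2} {x : E n // x ≠ e2} ℤ := Matrix.of fun i j =>
    (((-1 : ℤˣ) ^ (a (φ i)) : ℤˣ) : ℤ) * (((-1 : ℤˣ) ^ (b j.1) : ℤˣ) : ℤ) *
      kast (knightRegion n) (g (φ i)) (f j.1)
  have hcount : numTilings (knightRegion n) = M.det.natAbs := by
    refine numTilings_eq ((n : ℤ) + 1) (knightRegion n) (fun j : {x : E n // x ≠ e2} => f j.1)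
      (fun i => g (φ i)) (fun x y h => Subtype.ext (hf h))
      (fun x y h => φ.injective (Subtype.ext (hg h))) ?_ ?_ (fun i => (-1) ^ (a (φ i)))
      (fun j => (-1) ^ (b j.1)) M (fun i j => rfl)
    · intro p
      rw [← hfR p]
      constructor
      · rintro ⟨⟨x, hx⟩, rfl⟩
        exact ⟨x, fun h => hx ((he2 x).mpr h), rfl⟩
      · rintro ⟨x, hx, rfl⟩
        exact ⟨⟨x, fun h => hx ((he2 x).mp h)⟩, rfl⟩
    · intro p
      rw [← hgR p]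
      constructor
      · rintro ⟨x, rfl⟩
        exact ⟨(φ x).1, fun h => (φ x).2 ((ho1 _).mpr h), rfl⟩
      · rintro ⟨x, hx, rfl⟩
        exact ⟨φ.symm ⟨x, fun h => hx ((ho1 x).mp h)⟩, by simp⟩
  have hmap : M.map (Int.castRingHom ℚ) = Matrix.of fun i j : {x : E n // x ≠ e2} =>
      if (φ i : O n) = oe ∧ (j : E n) = ee then -1 else K0 n (φ i) j := by
    ext i j
    have h := hgauge (φ i).1 j.1 (fun h => (φ i).2 ((ho1 _).mpr h)) (fun h => j.2 ((he2 _).mpr h))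
    rw [Matrix.map_apply, Matrix.of_apply]
    have hM : M i j = (((-1 : ℤˣ) ^ (a (φ i)) : ℤˣ) : ℤ) * (((-1 : ℤˣ) ^ (b j.1) : ℤˣ) : ℤ) *
      kast (knightRegion n) (g (φ i)) (f j.1) := rfl
    have h2 : (((-1 : ℤˣ) ^ (a (φ i)) : ℤˣ) : ℤ) * (((-1 : ℤˣ) ^ (b j.1) : ℤˣ) : ℤ) *
      kast (knightRegion n) (g (φ i)) (f j.1) = if ((φ i).1 = oe ∧ j.1 = ee) then -1
        else K0z n (φ i) j := by
      push_cast
      rw [h]
      refine if_congr ?_ rfl rfl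
      rw [hoe, hee]
    rw [hM, h2]
    split_ifs with h3
    · simp
    · rw [← K0z_cast]; rfl
  obtain ⟨N, rfl⟩ : ∃ N, n = N + 1 := ⟨n - 1, by omega⟩
  obtain ⟨e, he⟩ := abs_det_minor (K0 (N + 1)) (fun x => (G (N + 1) γ m x.1).coeff x.2)
    (fun x => (G (N + 1) γ (m + 1) x.1).coeff x.2) o1 oe e2 ee (by
      intro h
      rw [he2] at h
      simp only [ee] at h
      omega) (by
      intro o
      rw [K0_G (N + 1) γ m m (by omega) (by omega) hγ o]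
      refine if_congr ?_ rfl rfl
      rw [ho1]) (by
      intro o
      rw [K0_G (N + 1) γ (m + 1) m (by omega) (by omega) hγ o]
      refine if_congr ?_ rfl rfl
      rw [hoe]
      omega) (by
      rw [← K0z_cast, K0z_10 _ _ _ rfl rfl]; norm_num) φ
  rw [hcount, ← Int.cast_natCast, Int.natCast_natAbs, Int.cast_abs]
  have h3 : ((M.det : ℤ) : ℚ) = (M.map (Int.castRingHom ℚ)).det := by
    rw [← RingHom.mapMatrix_apply, ← RingHom.map_det]; rfl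
  rw [h3, hmap, he, abs_det_K0]
  rfl

theorem fe_inj (n : ℕ) : Function.Injective (fe n) := by
  rintro ⟨⟨s, hs⟩, ⟨t, ht⟩⟩ ⟨⟨s', hs'⟩, ⟨t', ht'⟩⟩ h
  simp only [fe, Prod.mk.injEq] at h
  ext
  · simp only; omega
  · simp only; omega

theorem ge_inj (n : ℕ) : Function.Injective (ge n) := by
  rintro ⟨⟨s, hs⟩, ⟨t, ht⟩⟩ ⟨⟨s', hs'⟩, ⟨t', ht'⟩⟩ h
  simp only [ge, Prod.mk.injEq] at h
  ext
  · simp only; omega
  · simp only; omega

theorem fo_inj (n : ℕ) : Function.Injective (fo n) := by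
  rintro ⟨⟨s, hs⟩, ⟨t, ht⟩⟩ ⟨⟨s', hs'⟩, ⟨t', ht'⟩⟩ h
  simp only [fo, Prod.mk.injEq] at h
  ext
  · simp only; omega
  · simp only; omega

theorem go_inj (n : ℕ) : Function.Injective (go n) := by
  rintro ⟨⟨s, hs⟩, ⟨t, ht⟩⟩ ⟨⟨s', hs'⟩, ⟨t', ht'⟩⟩ h
  simp only [go, Prod.mk.injEq] at h
  ext
  · simp only; omega
  · simp only; omega

theorem fe_range (m : ℕ) (hm : 1 ≤ m) (p : ℤ × ℤ) :
    (∃ x : E (2 * m), ¬ ((x.1 : ℕ) = m + 1 ∧ (x.2 : ℕ) = m) ∧ fe (2 * m) x = p) ↔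
      p ∈ knightRegion (2 * m) ∧ Even (p.1 + p.2 + (((2 * m : ℕ) : ℤ) + 1)) := by
  rw [mem_knight, Int.even_iff]
  constructor
  · rintro ⟨⟨⟨s, hs⟩, ⟨t, ht⟩⟩, hx, rfl⟩
    simp only [fe] at hx ⊢
    omega
  · rintro ⟨h1, h2⟩
    refine ⟨(⟨((p.1 + p.2 + 1 + 2 * m) / 2).toNat, by omega⟩,
      ⟨((p.2 - p.1 + 2 * m - 1) / 2).toNat, by omega⟩), ?_, ?_⟩
    · simp only
      omega
    · unfold fe
      ext
      · simp only; omega
      · simp only; omega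

theorem ge_range (m : ℕ) (hm : 1 ≤ m) (p : ℤ × ℤ) :
    (∃ o : O (2 * m), ¬ ((o.1 : ℕ) + 1 = m ∧ (o.2 : ℕ) = m) ∧ ge (2 * m) o = p) ↔
      p ∈ knightRegion (2 * m) ∧ ¬ Even (p.1 + p.2 + (((2 * m : ℕ) : ℤ) + 1)) := by
  rw [mem_knight, Int.even_iff]
  constructor
  · rintro ⟨⟨⟨s, hs⟩, ⟨t, ht⟩⟩, hx, rfl⟩
    simp only [ge] at hx ⊢
    omega
  · rintro ⟨h1, h2⟩
    refine ⟨(⟨((p.1 + p.2 + 2 * m) / 2).toNat, by omega⟩,
      ⟨((p.2 - p.1 + 2 * m) / 2).toNat, by omega⟩), ?_, ?_⟩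
    · simp only
      omega
    · unfold ge
      ext
      · simp only; omega
      · simp only; omega

theorem fo_range (m : ℕ) (hm : 1 ≤ m) (p : ℤ × ℤ) :
    (∃ x : E (2 * m + 1), ¬ ((x.1 : ℕ) = m + 1 ∧ (x.2 : ℕ) = m) ∧ fo (2 * m + 1) x = p) ↔
      p ∈ knightRegion (2 * m + 1) ∧ Even (p.1 + p.2 + (((2 * m + 1 : ℕ) : ℤ) + 1)) := by
  rw [mem_knight, Int.even_iff]
  constructor
  · rintro ⟨⟨⟨s, hs⟩, ⟨t, ht⟩⟩, hx, rfl⟩
    simp only [fo] at hx ⊢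
    omega
  · rintro ⟨h1, h2⟩
    refine ⟨(⟨((2 * m - p.1 - p.2) / 2).toNat, by omega⟩,
      ⟨((2 * m + p.1 - p.2) / 2).toNat, by omega⟩), ?_, ?_⟩
    · simp only
      omega
    · unfold fo
      ext
      · simp only; omega
      · simp only; omega

theorem go_range (m : ℕ) (hm : 1 ≤ m) (p : ℤ × ℤ) :
    (∃ o : O (2 * m + 1), ¬ ((o.1 : ℕ) + 1 = m ∧ (o.2 : ℕ) = m) ∧ go (2 * m + 1) o = p) ↔
      p ∈ knightRegion (2 * m + 1) ∧ ¬ Even (p.1 + p.2 + (((2 * m + 1 : ℕ) : ℤ) + 1)) := by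
  rw [mem_knight, Int.even_iff]
  constructor
  · rintro ⟨⟨⟨s, hs⟩, ⟨t, ht⟩⟩, hx, rfl⟩
    simp only [go] at hx ⊢
    omega
  · rintro ⟨h1, h2⟩
    refine ⟨(⟨((2 * m - p.1 - p.2 - 1) / 2).toNat, by omega⟩,
      ⟨((2 * m + 1 + p.1 - p.2) / 2).toNat, by omega⟩), ?_, ?_⟩
    · simp only
      omega
    · unfold go
      ext
      · simp only; omega
      · simp only; omega

theorem count_even (m : ℕ) (hm : 1 ≤ m) :
    (numTilings (knightRegion (2 * m)) : ℚ) = 2 ^ (2 * m * (2 * m + 1) / 2) *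
      |val ((G (2 * m) (γe m) m (m + 1)).coeff m) ((G (2 * m) (γe m) m m).coeff m)
        ((G (2 * m) (γe m) (m + 1) (m + 1)).coeff m) ((G (2 * m) (γe m) (m + 1) m).coeff m)| :=
  count_gen (2 * m) m hm (by omega) (fe (2 * m)) (ge (2 * m)) (fe_inj _) (ge_inj _)
    (fe_range m hm) (ge_range m hm) (aE (2 * m)) (bE (2 * m))
    (fun o x ho hx => gauge_even m hm o x ho hx) (γe m) (hγe m)

theorem count_odd (m : ℕ) (hm : 1 ≤ m) :
    (numTilings (knightRegion (2 * m + 1)) : ℚ) = 2 ^ ((2 * m + 1) * (2 * m + 1 + 1) / 2) *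
      |val ((G (2 * m + 1) (γo m) m (m + 1)).coeff m) ((G (2 * m + 1) (γo m) m m).coeff m)
        ((G (2 * m + 1) (γo m) (m + 1) (m + 1)).coeff m) ((G (2 * m + 1) (γo m) (m + 1) m).coeff m)| :=
  count_gen (2 * m + 1) m hm (by omega) (fo (2 * m + 1)) (go (2 * m + 1)) (fo_inj _) (go_inj _)
    (fo_range m hm) (go_range m hm) (aO (2 * m + 1)) (bO (2 * m + 1))
    (fun o x ho hx => gauge_odd m hm o x ho hx) (γo m) (hγo m)

theorem cb_sq_le (j : ℕ) : cb j ^ 2 ≤ 16 ^ j := by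
  have h := half_even j
  have h2 : 0 ≤ ∑ i ∈ range j, cb i * cb (2 * j - i) :=
    Finset.sum_nonneg fun i _ => mul_nonneg (cb_pos _).le (cb_pos _).le
  linarith

theorem q_count0 (j : ℕ) (hj : 1 ≤ j) : (numTilings (knightRegion (4 * j)) : ℚ) =
    2 ^ (2 * j * (4 * j + 1)) * (j * cb j ^ 2 * (16 ^ j + cb j ^ 2) / (2 * 16 ^ (2 * j))) := by
  have h := count_even (2 * j) (by omega)
  rw [val0 j hj] at h
  have h1 : 2 * (2 * j) * (2 * (2 * j) + 1) / 2 = 2 * j * (4 * j + 1) := by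
    rw [show 2 * (2 * j) * (2 * (2 * j) + 1) = 2 * (2 * j * (4 * j + 1)) by ring]
    omega
  have h2 := cb_pos j
  rw [h1, abs_of_nonneg (by positivity), show 2 * (2 * j) = 4 * j by ring] at h
  exact h

theorem q_count1 (j : ℕ) (hj : 1 ≤ j) : (numTilings (knightRegion (4 * j + 1)) : ℚ) =
    2 ^ ((4 * j + 1) * (2 * j + 1)) *
      ((2 * j + 1) * cb j ^ 2 * (16 ^ j - cb j ^ 2) / (4 * 16 ^ (2 * j))) := by
  have h := count_odd (2 * j) (by omega)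
  rw [val1 j hj] at h
  have h1 : (2 * (2 * j) + 1) * (2 * (2 * j) + 1 + 1) / 2 = (4 * j + 1) * (2 * j + 1) := by
    rw [show (2 * (2 * j) + 1) * (2 * (2 * j) + 1 + 1) = 2 * ((4 * j + 1) * (2 * j + 1)) by ring]
    omega
  have h2 := cb_pos j
  have h3 : 0 ≤ (16 : ℚ) ^ j - cb j ^ 2 := sub_nonneg.mpr (cb_sq_le j)
  rw [h1, abs_of_nonneg (by positivity), show 2 * (2 * j) = 4 * j by ring] at h
  exact h

theorem q_count2 (j : ℕ) : (numTilings (knightRegion (4 * j + 2)) : ℚ) =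
    2 ^ ((2 * j + 1) * (4 * j + 3)) * ((2 * j + 1) * cb j ^ 2 / (4 * 16 ^ j)) := by
  have h := count_even (2 * j + 1) (by omega)
  rw [val2 j] at h
  have h1 : 2 * (2 * j + 1) * (2 * (2 * j + 1) + 1) / 2 = (2 * j + 1) * (4 * j + 3) := by
    rw [show 2 * (2 * j + 1) * (2 * (2 * j + 1) + 1) = 2 * ((2 * j + 1) * (4 * j + 3)) by ring]
    omega
  have h2 := cb_pos j
  rw [h1, abs_of_nonneg (by positivity), show 2 * (2 * j + 1) = 4 * j + 2 by ring] at h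
  exact h

theorem q_count3 (j : ℕ) : (numTilings (knightRegion (4 * j + 3)) : ℚ) =
    2 ^ ((4 * j + 3) * (2 * j + 2)) * ((j + 1) * cb (j + 1) ^ 2 / (32 * 16 ^ j)) := by
  have h := count_odd (2 * j + 1) (by omega)
  rw [val3 j] at h
  have h1 : (2 * (2 * j + 1) + 1) * (2 * (2 * j + 1) + 1 + 1) / 2 = (4 * j + 3) * (2 * j + 2) := by
    rw [show (2 * (2 * j + 1) + 1) * (2 * (2 * j + 1) + 1 + 1) = 2 * ((4 * j + 3) * (2 * j + 2)) by ring]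
    omega
  have h2 := cb_pos (j + 1)
  rw [h1, abs_of_nonneg (by positivity), show 2 * (2 * j + 1) + 1 = 4 * j + 3 by ring] at h
  exact h

end Pool.Agent.L5helper31.Aztec
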