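import Pool.Agent.Helper848.Kast
import Pool.Agent.Helper848.AztecDet

/-!
The Aztec diamond with two cells a knight's move apart removed.
-/

namespace Pool.Agent.L5helper31.Aztec

open Finset Pool.Agent.Helper848

/-- The Aztec diamond of order `n`.  The pair `(i, j)` stands for the closed unit square
`[i, i+1] × [j, j+1]`, whose centre is `(i + 1/2, j + 1/2)`; it belongs to the diamond if and only if
`|i + 1/2| + |j + 1/2| ≤ n`. -/
noncomputable def aztec (n : ℕ) : Finset (ℤ × ℤ) :=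
  ((Finset.Icc (-(n : ℤ)) n) ×ˢ (Finset.Icc (-(n : ℤ)) n)).filter
    fun c => |2 * c.1 + 1| + |2 * c.2 + 1| ≤ 2 * (n : ℤ)

/-- The region `D_n`: the cells with centres `(-1/2, -1/2)` and `(1/2, 3/2)` are deleted. -/
noncomputable def knightRegion (n : ℕ) : Finset (ℤ × ℤ) := aztec n \ {((-1 : ℤ), (-1 : ℤ)), ((0 : ℤ), (1 : ℤ))}

theorem mem_aztec (n : ℕ) (c : ℤ × ℤ) : c ∈ aztec n ↔
    (-(n : ℤ) ≤ c.1 + c.2 + 1 ∧ c.1 + c.2 + 1 ≤ n) ∧ (-(n : ℤ) ≤ c.2 - c.1 ∧ c.2 - c.1 ≤ n) := by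
  unfold aztec
  rw [mem_filter, mem_product, mem_Icc, mem_Icc]
  rcases abs_cases (2 * c.1 + 1) with h | h <;> rcases abs_cases (2 * c.2 + 1) with h' | h' <;>
    rw [h.1, h'.1] <;> omega

theorem mem_knight (n : ℕ) (c : ℤ × ℤ) : c ∈ knightRegion n ↔
    ((-(n : ℤ) ≤ c.1 + c.2 + 1 ∧ c.1 + c.2 + 1 ≤ n) ∧ (-(n : ℤ) ≤ c.2 - c.1 ∧ c.2 - c.1 ≤ n)) ∧
      ¬ (c.1 = -1 ∧ c.2 = -1) ∧ ¬ (c.1 = 0 ∧ c.2 = 1) := by
  unfold knightRegion
  rw [mem_sdiff, mem_aztec, mem_insert, mem_singleton, Prod.ext_iff, Prod.ext_iff]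
  tauto

theorem card_filter_knight (n : ℕ) (hn : 2 ≤ n) (P : ℤ × ℤ → Prop) [DecidablePred P] :
    ((knightRegion n).filter P).card + (if P (-1, -1) then 1 else 0) + (if P (0, 1) then 1 else 0) =
      ((aztec n).filter P).card := by
  have hsub : ({((-1 : ℤ), (-1 : ℤ)), ((0 : ℤ), (1 : ℤ))} : Finset (ℤ × ℤ)) ⊆ aztec n := by
    intro c hc
    rw [mem_insert, mem_singleton] at hc
    rw [mem_aztec]
    rcases hc with rfl | rfl
    · simp only; omega
    · simp only; omega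
  have h1 : (knightRegion n).filter P = (aztec n).filter P \
      ({((-1 : ℤ), (-1 : ℤ)), ((0 : ℤ), (1 : ℤ))} : Finset (ℤ × ℤ)).filter P := by
    unfold knightRegion
    ext c
    simp only [mem_filter, mem_sdiff]
    tauto
  have h2 : (({((-1 : ℤ), (-1 : ℤ)), ((0 : ℤ), (1 : ℤ))} : Finset (ℤ × ℤ)).filter P).card =
      (if P (-1, -1) then 1 else 0) + (if P (0, 1) then 1 else 0) := by
    rw [card_filter, sum_pair (by decide)]
  have h3 := card_le_card (filter_subset_filter P hsub)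
  rw [h1, card_sdiff_of_subset (filter_subset_filter P hsub), add_assoc, ← h2]
  omega

theorem above_aztec (n : ℕ) (w : ℤ × ℤ) (hw : w ∈ aztec n) :
    above (aztec n) w = (((n : ℤ) - (w.1 + w.2 + 1)) / 2).toNat := by
  rw [mem_aztec] at hw
  unfold above
  have h : ((aztec n).filter fun q => q.2 - q.1 = w.2 - w.1 ∧ w.1 < q.1) =
      (range (((n : ℤ) - (w.1 + w.2 + 1)) / 2).toNat).image fun k : ℕ => (w.1 + 1 + k, w.2 + 1 + k) := by
    ext q
    rw [mem_filter, mem_aztec, mem_image]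
    simp only [mem_range]
    constructor
    · rintro ⟨h1, h2, h3⟩
      refine ⟨(q.1 - w.1 - 1).toNat, ?_, ?_⟩
      · omega
      · ext
        · simp only; omega
        · simp only; omega
    · rintro ⟨k, hk, rfl⟩
      simp only
      omega
  rw [h, card_image_of_injective, card_range]
  intro a b hab
  rw [Prod.mk.injEq] at hab
  omega

theorem below_aztec (n : ℕ) (b : ℤ × ℤ) (hb : b ∈ aztec n) :
    below (aztec n) b = (((n : ℤ) + (b.1 + b.2 + 1)) / 2).toNat := by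
  rw [mem_aztec] at hb
  unfold below
  have h : ((aztec n).filter fun q => q.2 - q.1 = b.2 - b.1 ∧ q.1 < b.1) =
      (range (((n : ℤ) + (b.1 + b.2 + 1)) / 2).toNat).image fun k : ℕ => (b.1 - 1 - k, b.2 - 1 - k) := by
    ext q
    rw [mem_filter, mem_aztec, mem_image]
    simp only [mem_range]
    constructor
    · rintro ⟨h1, h2, h3⟩
      refine ⟨(b.1 - 1 - q.1).toNat, ?_, ?_⟩
      · omega
      · ext
        · simp only; omega
        · simp only; omega
    · rintro ⟨k, hk, rfl⟩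
      simp only
      omega
  rw [h, card_image_of_injective, card_range]
  intro x y hxy
  rw [Prod.mk.injEq] at hxy
  omega

theorem above_knight (n : ℕ) (hn : 2 ≤ n) (w : ℤ × ℤ) (hw : w ∈ aztec n) :
    above (knightRegion n) w + (if w.2 = w.1 ∧ w.1 < -1 then 1 else 0) +
      (if w.2 = w.1 + 1 ∧ w.1 < 0 then 1 else 0) = (((n : ℤ) - (w.1 + w.2 + 1)) / 2).toNat := by
  have h := card_filter_knight n hn (fun q => q.2 - q.1 = w.2 - w.1 ∧ w.1 < q.1)
  rw [← above_aztec n w hw]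
  unfold above
  rw [← h]
  congr 1
  · congr 1
    refine if_congr ?_ rfl rfl
    simp only; omega
  · refine if_congr ?_ rfl rfl
    simp only; omega

theorem below_knight (n : ℕ) (hn : 2 ≤ n) (b : ℤ × ℤ) (hb : b ∈ aztec n) :
    below (knightRegion n) b + (if b.2 = b.1 ∧ -1 < b.1 then 1 else 0) +
      (if b.2 = b.1 + 1 ∧ 0 < b.1 then 1 else 0) = (((n : ℤ) + (b.1 + b.2 + 1)) / 2).toNat := by
  have h := card_filter_knight n hn (fun q => q.2 - q.1 = b.2 - b.1 ∧ q.1 < b.1)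
  rw [← below_aztec n b hb]
  unfold below
  rw [← h]
  congr 1
  · congr 1
    refine if_congr ?_ rfl rfl
    simp only; omega
  · refine if_congr ?_ rfl rfl
    simp only; omega

end Pool.Agent.L5helper31.Aztec
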