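import Pool.Agent.Helper848.AztecDet

/-!
Closed forms of the entries of the inverse Kasteleyn matrix of the Aztec diamond near its centre.
-/

namespace Pool.Agent.L5helper31.Aztec

open Polynomial Finset

/-- coefficient of `X ^ t` in `(1+X)^i (1-X)^j` -/
noncomputable def Kr (i j t : ℕ) : ℚ := ((1 + X) ^ i * (1 - X) ^ j : ℚ[X]).coeff t

/-- central binomial coefficient -/
def cb (i : ℕ) : ℚ := (Nat.centralBinom i : ℚ)

theorem cb_pos (i : ℕ) : 0 < cb i := by
  unfold cb; exact_mod_cast Nat.centralBinom_pos i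

theorem cb_zero : cb 0 = 1 := by simp [cb]

theorem cb_succ (i : ℕ) : ((i : ℚ) + 1) * cb (i + 1) = 2 * (2 * i + 1) * cb i := by
  have h := Nat.succ_mul_centralBinom_succ i
  unfold cb
  exact_mod_cast h

/-- the von Szily numbers -/
noncomputable def Sz (i r : ℕ) : ℚ :=
  ((2 * i).factorial * (2 * r).factorial : ℚ) / (i.factorial * r.factorial * (i + r).factorial)

theorem Sz_succ_left (i r : ℕ) : ((i : ℚ) + r + 1) * Sz (i + 1) r = 2 * (2 * i + 1) * Sz i r := by
  unfold Sz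
  rw [show 2 * (i + 1) = 2 * i + 1 + 1 by ring, show i + 1 + r = (i + r) + 1 by ring,
    Nat.factorial_succ (2 * i + 1), Nat.factorial_succ (2 * i), Nat.factorial_succ i,
    Nat.factorial_succ (i + r)]
  have h1 : ((i.factorial : ℕ) : ℚ) ≠ 0 := by exact_mod_cast Nat.factorial_ne_zero i
  have h2 : ((r.factorial : ℕ) : ℚ) ≠ 0 := by exact_mod_cast Nat.factorial_ne_zero r
  have h3 : (((i + r).factorial : ℕ) : ℚ) ≠ 0 := by exact_mod_cast Nat.factorial_ne_zero (i + r)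
  have h4 : ((i : ℚ) + 1) ≠ 0 := by positivity
  have h5 : ((i : ℚ) + r + 1) ≠ 0 := by positivity
  push_cast
  field_simp
  ring

theorem Sz_symm (i r : ℕ) : Sz i r = Sz r i := by
  unfold Sz
  rw [add_comm i r]
  ring

theorem Sz_succ_right (i r : ℕ) : ((i : ℚ) + r + 1) * Sz i (r + 1) = 2 * (2 * r + 1) * Sz i r := by
  rw [Sz_symm i (r + 1), Sz_symm i r, add_comm (i : ℚ) r, Sz_succ_left]

theorem Kr_rec (i r : ℕ) :
    Kr (2 * i) (2 * (r + 1)) (i + (r + 1)) =
      Kr (2 * (i + 1)) (2 * r) (i + 1 + r) - 4 * Kr (2 * i) (2 * r) (i + r) := by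
  unfold Kr
  have h : ((1 + X) ^ (2 * i) * (1 - X) ^ (2 * (r + 1)) : ℚ[X]) =
      (1 + X) ^ (2 * (i + 1)) * (1 - X) ^ (2 * r) -
        C 4 * (X * ((1 + X) ^ (2 * i) * (1 - X) ^ (2 * r))) := by
    have h4 : (C 4 : ℚ[X]) = 4 := rfl
    rw [h4]
    ring
  rw [h, coeff_sub, coeff_C_mul, show i + (r + 1) = (i + r) + 1 by ring, coeff_X_mul,
    show i + 1 + r = (i + r) + 1 by ring]

/-- von Szily's identity -/
theorem Kr_eq (r : ℕ) : ∀ i : ℕ, Kr (2 * i) (2 * r) (i + r) = (-1) ^ r * Sz i r := by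
  induction r with
  | zero =>
    intro i
    unfold Kr Sz
    simp only [mul_zero, pow_zero, mul_one, Nat.factorial_zero, Nat.cast_one, add_zero, one_mul]
    rw [coeff_one_add_X_pow]
    rw [Nat.cast_choose ℚ (by omega : i ≤ 2 * i), show 2 * i - i = i by omega]
  | succ r ih =>
    intro i
    rw [Kr_rec, ih (i + 1), ih i]
    have h1 := Sz_succ_left i r
    have h2 := Sz_succ_right i r
    have h5 : ((i : ℚ) + r + 1) ≠ 0 := by positivity
    apply mul_left_cancel₀ h5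
    rw [mul_sub, pow_succ]
    linear_combination (-1) ^ r * h1 + (-1) ^ r * h2

theorem choose_mul_Sz (i r : ℕ) : (((i + r).choose i : ℕ) : ℚ) * Sz i r = cb i * cb r := by
  unfold Sz cb
  rw [Nat.cast_choose ℚ (by omega : i ≤ i + r), show i + r - i = r by omega,
    Nat.centralBinom_eq_two_mul_choose, Nat.centralBinom_eq_two_mul_choose,
    Nat.cast_choose ℚ (by omega : i ≤ 2 * i), Nat.cast_choose ℚ (by omega : r ≤ 2 * r),
    show 2 * i - i = i by omega, show 2 * r - r = r by omega]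
  have h1 : ((i.factorial : ℕ) : ℚ) ≠ 0 := by exact_mod_cast Nat.factorial_ne_zero i
  have h2 : ((r.factorial : ℕ) : ℚ) ≠ 0 := by exact_mod_cast Nat.factorial_ne_zero r
  have h3 : (((i + r).factorial : ℕ) : ℚ) ≠ 0 := by exact_mod_cast Nat.factorial_ne_zero (i + r)
  field_simp

/-- the first kind of summands -/
noncomputable def Dd (m i : ℕ) : ℚ := ((m.choose i : ℕ) : ℚ) * (-1) ^ (m - i) * Kr (2 * i) (2 * (m - i)) m

theorem Dd_eq (m i : ℕ) (h : i ≤ m) : Dd m i = cb i * cb (m - i) := by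
  obtain ⟨r, rfl⟩ := Nat.exists_eq_add_of_le h
  unfold Dd
  rw [show i + r - i = r by omega, Kr_eq r i, ← choose_mul_Sz i r]
  have : ((-1 : ℚ) ^ r) * (-1) ^ r = 1 := by rw [← mul_pow]; norm_num
  linear_combination (((i + r).choose i : ℕ) : ℚ) * Sz i r * this

/-- the second kind of summands -/
noncomputable def Ee (m i : ℕ) : ℚ :=
  ((m.choose i : ℕ) : ℚ) * (-1) ^ (m - 1 - i) * Kr (2 * (i + 1)) (2 * (m - 1 - i)) m

theorem Ee_eq (m i : ℕ) (h : i < m) :
    Ee m i * ((m : ℚ) - i) = 2 * (2 * i + 1) * (cb i * cb (m - 1 - i)) := by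
  obtain ⟨r, rfl⟩ := Nat.exists_eq_add_of_lt h
  unfold Ee
  rw [show i + r + 1 - 1 - i = r by omega, show i + r + 1 = (i + 1) + r by ring, Kr_eq r (i + 1)]
  have h1 := Sz_succ_left i r
  have h2 : ((((i + 1) + r).choose i : ℕ) : ℚ) * (r + 1) = (i + r + 1) * (((i + r).choose i : ℕ) : ℚ) := by
    have h4 := Nat.choose_mul_succ_eq (i + r) i
    rw [show i + r + 1 - i = r + 1 by omega] at h4
    rw [show i + 1 + r = i + r + 1 by ring]
    have h5 : (((i + r).choose i * (i + r + 1) : ℕ) : ℚ) = (((i + r + 1).choose i * (r + 1) : ℕ) : ℚ) := by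
      rw [h4]
    push_cast at h5
    linarith
  rw [← choose_mul_Sz i r]
  have h6 : ((-1 : ℚ) ^ r) * (-1) ^ r = 1 := by rw [← mul_pow]; norm_num
  push_cast
  have h5 : ((i : ℚ) + r + 1) ≠ 0 := by positivity
  calc (((i + 1 + r).choose i : ℕ) : ℚ) * (-1) ^ r * ((-1) ^ r * Sz (i + 1) r) * (i + 1 + r - i)
      = ((((i + 1) + r).choose i : ℕ) * (r + 1)) * Sz (i + 1) r * ((-1 : ℚ) ^ r * (-1) ^ r) := by ring
    _ = (i + r + 1) * (((i + r).choose i : ℕ) : ℚ) * Sz (i + 1) r := by rw [h6, h2]; ring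
    _ = (((i + r).choose i : ℕ) : ℚ) * ((i + r + 1) * Sz (i + 1) r) := by ring
    _ = 2 * (2 * i + 1) * ((((i + r).choose i : ℕ) : ℚ) * Sz i r) := by rw [h1]; ring

/-- the expansion of `X ^ m`, even case -/
theorem expand_even (m : ℕ) : ∑ i ∈ range (m + 1),
    C ((1 / 4 : ℚ) ^ m * ((-1) ^ (m - i) * ((m.choose i : ℕ) : ℚ))) *
      ((1 + X) ^ (2 * i) * (1 - X) ^ (2 * (m - i)) : ℚ[X]) = X ^ m := by
  have h1 : (X : ℚ[X]) = C (1 / 4) * ((1 + X) ^ 2 + -((1 - X) ^ 2)) := by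
    have h2 : ((1 + X) ^ 2 + -((1 - X) ^ 2) : ℚ[X]) = C 4 * X := by
      have h4 : (C 4 : ℚ[X]) = 4 := rfl
      rw [h4]; ring
    rw [h2, ← mul_assoc, ← C_mul]
    norm_num
  conv_rhs => rw [h1]
  rw [mul_pow, ← C_pow, add_pow, Finset.mul_sum]
  refine Finset.sum_congr rfl fun i _ => ?_
  rw [C_mul, C_mul, neg_pow ((1 - X : ℚ[X]) ^ 2), ← pow_mul, ← pow_mul]
  have h3 : ((-1 : ℚ[X])) ^ (m - i) = C ((-1) ^ (m - i)) := by simp
  have h5 : ((m.choose i : ℕ) : ℚ[X]) = C ((m.choose i : ℕ) : ℚ) := by simp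
  rw [h3, h5]
  ring

theorem sum_cb (m : ℕ) : ∑ i ∈ range (m + 1), cb i * cb (m - i) = 4 ^ m := by
  have h := congrArg (fun p : ℚ[X] => p.coeff m) (expand_even m)
  simp only [finsetSum_coeff, coeff_C_mul, coeff_X_pow, if_true] at h
  have h2 : ∑ i ∈ range (m + 1), (1 / 4 : ℚ) ^ m * (cb i * cb (m - i)) = 1 := by
    refine Eq.trans (Finset.sum_congr rfl fun i hi => ?_) h
    rw [mem_range] at hi
    rw [← Dd_eq m i (by omega)]
    unfold Dd Kr
    ring
  rw [← Finset.mul_sum] at h2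
  have h3 : (4 : ℚ) ^ m ≠ 0 := by positivity
  rw [one_div, inv_pow] at h2
  field_simp at h2
  linarith

/-- half sums, even case -/
theorem half_even (j : ℕ) : ∑ i ∈ range j, cb i * cb (2 * j - i) = (16 ^ j - cb j ^ 2) / 2 := by
  have h := sum_cb (2 * j)
  rw [show 2 * j + 1 = j + 1 + j by ring, Finset.sum_range_add, Finset.sum_range_succ] at h
  have h2 : ∑ x ∈ range j, cb (j + 1 + x) * cb (2 * j - (j + 1 + x)) =
      ∑ i ∈ range j, cb i * cb (2 * j - i) := by
    rw [← Finset.sum_range_reflect]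
    refine Finset.sum_congr rfl fun i hi => ?_
    rw [mem_range] at hi
    rw [show j + 1 + (j - 1 - i) = 2 * j - i by omega, show 2 * j - (2 * j - i) = i by omega, mul_comm]
  rw [h2, pow_mul, show 2 * j - j = j by omega] at h
  norm_num at h
  linarith

/-- half sums, odd case -/
theorem half_odd (j : ℕ) : ∑ i ∈ range (j + 1), cb i * cb (2 * j + 1 - i) = 2 * 16 ^ j := by
  have h := sum_cb (2 * j + 1)
  rw [show 2 * j + 1 + 1 = (j + 1) + (j + 1) by ring, Finset.sum_range_add] at h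
  have h2 : ∑ x ∈ range (j + 1), cb (j + 1 + x) * cb (2 * j + 1 - (j + 1 + x)) =
      ∑ i ∈ range (j + 1), cb i * cb (2 * j + 1 - i) := by
    rw [← Finset.sum_range_reflect]
    refine Finset.sum_congr rfl fun i hi => ?_
    rw [mem_range] at hi
    rw [show j + 1 + (j + 1 - 1 - i) = 2 * j + 1 - i by omega,
      show 2 * j + 1 - (2 * j + 1 - i) = i by omega, mul_comm]
  rw [h2, pow_succ, pow_mul] at h
  norm_num at h
  linarith

/-- the telescoping sum -/
theorem gosper (m r : ℕ) (h : r ≤ m) (hm : 1 ≤ m) :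
    ∑ i ∈ range r, cb i * cb (m - 1 - i) / ((m : ℚ) - i) =
      r * (cb r * cb (m - r)) / (2 * m) := by
  have hm0 : (m : ℚ) ≠ 0 := by positivity
  induction r with
  | zero => simp
  | succ r ih =>
    rw [Finset.sum_range_succ, ih (by omega)]
    obtain ⟨s, rfl⟩ := Nat.exists_eq_add_of_le h
    rw [show r + 1 + s - 1 - r = s by omega, show r + 1 + s - r = s + 1 by omega,
      show r + 1 + s - (r + 1) = s by omega]
    have h1 := cb_succ r
    have h2 := cb_succ s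
    push_cast at hm0 ⊢
    have h3 : ((s : ℚ) + 1) ≠ 0 := by positivity
    have h4 : ((r : ℚ) + 1 + s - r) = s + 1 := by ring
    rw [h4]
    field_simp
    linear_combination (r : ℚ) * cb r * h2 - ((s : ℚ) + 1) * cb s * h1

theorem sum_Ee (m r : ℕ) (h : r ≤ m) (hm : 1 ≤ m) :
    ∑ i ∈ range r, Ee m i = (2 * m + 1) * (r * (cb r * cb (m - r))) / m -
      4 * ∑ i ∈ range r, cb i * cb (m - 1 - i) := by
  have hm0 : (m : ℚ) ≠ 0 := by positivity
  have h1 : ∀ i ∈ range r, Ee m i = 2 * (2 * m + 1) * (cb i * cb (m - 1 - i) / ((m : ℚ) - i)) -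
      4 * (cb i * cb (m - 1 - i)) := by
    intro i hi
    rw [mem_range] at hi
    have h2 := Ee_eq m i (by omega)
    have h3 : ((m : ℚ) - i) ≠ 0 := by
      have : ((i : ℕ) : ℚ) < m := by exact_mod_cast (by omega : i < m)
      linarith
    apply mul_right_cancel₀ h3
    rw [h2, sub_mul, mul_assoc (2 * (2 * (m : ℚ) + 1)), div_mul_cancel₀ _ h3]
    ring
  rw [Finset.sum_congr rfl h1, Finset.sum_sub_distrib, ← Finset.mul_sum, ← Finset.mul_sum,
    gosper m r h hm]
  field_simp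

theorem sum_Ee_even (j : ℕ) (hj : 1 ≤ j) :
    ∑ i ∈ range j, Ee (2 * j) i = ((4 * j + 1) * cb j ^ 2 - 16 ^ j) / 2 := by
  rw [sum_Ee (2 * j) j (by omega) (by omega)]
  obtain ⟨k, rfl⟩ := Nat.exists_eq_add_of_le' hj
  have h1 : ∑ i ∈ range (k + 1), cb i * cb (2 * (k + 1) - 1 - i) = 2 * 16 ^ k := by
    rw [← half_odd k]
    refine Finset.sum_congr rfl fun i _ => ?_
    rw [show 2 * (k + 1) - 1 - i = 2 * k + 1 - i by omega]
  rw [h1, show 2 * (k + 1) - (k + 1) = k + 1 by omega, pow_succ]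
  have h2 : ((k : ℚ) + 1) ≠ 0 := by positivity
  push_cast
  field_simp
  ring

theorem sum_Ee_odd_succ (j : ℕ) :
    ∑ i ∈ range (j + 1), Ee (2 * j + 1) i = 4 * (2 * j + 1) * cb j ^ 2 - 2 * 16 ^ j := by
  rw [sum_Ee (2 * j + 1) (j + 1) (by omega) (by omega)]
  have h1 : ∑ i ∈ range (j + 1), cb i * cb (2 * j + 1 - 1 - i) = (16 ^ j + cb j ^ 2) / 2 := by
    rw [Finset.sum_range_succ, show 2 * j + 1 - 1 = 2 * j by omega, half_even,
      show 2 * j - j = j by omega]
    ring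
  rw [h1, show 2 * j + 1 - (j + 1) = j by omega]
  have h2 := cb_succ j
  have h3 : (2 * (j : ℚ) + 1) ≠ 0 := by positivity
  push_cast
  field_simp
  linear_combination 2 * (2 * (2 * (j : ℚ) + 1) + 1) * cb j * h2

theorem sum_Ee_odd (j : ℕ) :
    ((j : ℚ) + 1) * ∑ i ∈ range j, Ee (2 * j + 1) i =
      2 * (2 * j + 1) ^ 2 * cb j ^ 2 - 2 * (j + 1) * 16 ^ j := by
  rw [sum_Ee (2 * j + 1) j (by omega) (by omega)]
  have h1 : ∑ i ∈ range j, cb i * cb (2 * j + 1 - 1 - i) = (16 ^ j - cb j ^ 2) / 2 := by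
    rw [show 2 * j + 1 - 1 = 2 * j by omega, half_even]
  rw [h1, show 2 * j + 1 - j = j + 1 by omega]
  have h2 := cb_succ j
  have h3 : (2 * (j : ℚ) + 1) ≠ 0 := by positivity
  push_cast
  field_simp
  linear_combination 2 * (2 * (2 * (j : ℚ) + 1) + 1) * j * cb j * h2

/-! ### symmetry of the coefficients -/

theorem deg_pow (a : ℚ) (i : ℕ) : ((1 + C a * X) ^ i : ℚ[X]).natDegree ≤ i := by
  have h : (1 + C a * X : ℚ[X]).natDegree ≤ 1 := by
    refine (natDegree_add_le _ _).trans (max_le (by simp) ?_)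
    exact (natDegree_C_mul_le a X).trans natDegree_X_le
  calc ((1 + C a * X) ^ i : ℚ[X]).natDegree ≤ i * (1 + C a * X : ℚ[X]).natDegree := natDegree_pow_le
    _ ≤ i * 1 := Nat.mul_le_mul_left i h
    _ = i := mul_one i

theorem reflect_lin (a : ℚ) (i : ℕ) :
    reflect i ((1 + C a * X) ^ i : ℚ[X]) = (X + C a) ^ i := by
  induction i with
  | zero => simp
  | succ i ih =>
    rw [pow_succ, reflect_mul _ _ (F := i) (G := 1) (deg_pow a i) (by simpa using deg_pow a 1), ih]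
    rw [pow_succ]
    congr 1
    rw [reflect_add, reflect_one, reflect_C_mul, reflect_one_X, pow_one, mul_one]

theorem Kr_symm (i j t : ℕ) (h : t ≤ i + j) : Kr i j t = (-1) ^ j * Kr i j (i + j - t) := by
  unfold Kr
  have h1 : ((1 + X) ^ i : ℚ[X]) = (1 + C 1 * X) ^ i := by simp
  have h2 : ((1 - X) ^ j : ℚ[X]) = (1 + C (-1) * X) ^ j := by
    congr 1; simp [sub_eq_add_neg]
  have h3 : reflect (i + j) ((1 + X) ^ i * (1 - X) ^ j : ℚ[X]) =
      C ((-1) ^ j) * ((1 + X) ^ i * (1 - X) ^ j) := by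
    conv_lhs => rw [h1, h2]
    rw [reflect_mul _ _ (deg_pow 1 i) (deg_pow (-1) j), reflect_lin, reflect_lin]
    have h4 : (X + C (-1) : ℚ[X]) = C (-1) * (1 - X) := by
      simp only [C_neg, C_1]; ring
    rw [h4, mul_pow, ← C_pow, C_1, add_comm X (1 : ℚ[X])]
    ring
  have h5 := congrArg (fun p : ℚ[X] => p.coeff (i + j - t)) h3
  simp only [coeff_reflect, coeff_C_mul] at h5
  rw [revAt_le (by omega), show i + j - (i + j - t) = t by omega] at h5
  exact h5

/-- middle coefficients with an odd exponent vanish -/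
theorem Kr_mid_odd (i r : ℕ) : Kr (2 * i + 1) (2 * r + 1) (i + r + 1) = 0 := by
  have h := Kr_symm (2 * i + 1) (2 * r + 1) (i + r + 1) (by omega)
  rw [show 2 * i + 1 + (2 * r + 1) - (i + r + 1) = i + r + 1 by omega, pow_succ, pow_mul] at h
  norm_num at h
  linarith

theorem Kr_half_left (i r : ℕ) :
    Kr (2 * i) (2 * r + 1) (i + r + 1) = Kr (2 * i) (2 * (r + 1)) (i + r + 1) / 2 := by
  have h := Kr_symm (2 * i) (2 * r + 1) (i + r + 1) (by omega)
  rw [show 2 * i + (2 * r + 1) - (i + r + 1) = i + r by omega, pow_succ, pow_mul] at h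
  have h2 : Kr (2 * i) (2 * (r + 1)) (i + r + 1) =
      Kr (2 * i) (2 * r + 1) (i + r + 1) - Kr (2 * i) (2 * r + 1) (i + r) := by
    unfold Kr
    have h3 : ((1 + X) ^ (2 * i) * (1 - X) ^ (2 * (r + 1)) : ℚ[X]) =
        (1 + X) ^ (2 * i) * (1 - X) ^ (2 * r + 1) - X * ((1 + X) ^ (2 * i) * (1 - X) ^ (2 * r + 1)) := by
      ring
    rw [h3, coeff_sub, coeff_X_mul]
  norm_num at h
  linarith

theorem Kr_half_right (i r : ℕ) :
    Kr (2 * i + 1) (2 * r) (i + r + 1) = Kr (2 * (i + 1)) (2 * r) (i + r + 1) / 2 := by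
  have h := Kr_symm (2 * i + 1) (2 * r) (i + r + 1) (by omega)
  rw [show 2 * i + 1 + 2 * r - (i + r + 1) = i + r by omega, pow_mul] at h
  have h2 : Kr (2 * (i + 1)) (2 * r) (i + r + 1) =
      Kr (2 * i + 1) (2 * r) (i + r + 1) + Kr (2 * i + 1) (2 * r) (i + r) := by
    unfold Kr
    have h3 : ((1 + X) ^ (2 * (i + 1)) * (1 - X) ^ (2 * r) : ℚ[X]) =
        (1 + X) ^ (2 * i + 1) * (1 - X) ^ (2 * r) + X * ((1 + X) ^ (2 * i + 1) * (1 - X) ^ (2 * r)) := by
      ring
    rw [h3, coeff_add, coeff_X_mul]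
  norm_num at h
  linarith

/-! ### splitting sums -/

theorem sum_pairs (f : ℕ → ℚ) (M : ℕ) :
    ∑ k ∈ range (2 * M), f k = ∑ i ∈ range M, (f (2 * i) + f (2 * i + 1)) := by
  induction M with
  | zero => simp
  | succ M ih =>
    rw [show 2 * (M + 1) = 2 * M + 1 + 1 by ring, Finset.sum_range_succ, Finset.sum_range_succ, ih,
      Finset.sum_range_succ]
    ring

theorem sum_even_only (f : ℕ → ℚ) (h : ∀ i, f (2 * i + 1) = 0) (K : ℕ) :
    ∑ k ∈ range K, f k = ∑ i ∈ range ((K + 1) / 2), f (2 * i) := by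
  induction K with
  | zero => simp
  | succ K ih =>
    rw [Finset.sum_range_succ, ih]
    rcases Nat.even_or_odd' K with ⟨j, rfl | rfl⟩
    · rw [show (2 * j + 1) / 2 = j by omega, show (2 * j + 1 + 1) / 2 = j + 1 by omega,
        Finset.sum_range_succ]
    · rw [show (2 * j + 1 + 1) / 2 = j + 1 by omega, show (2 * j + 1 + 1 + 1) / 2 = j + 1 by omega,
        h, add_zero]

theorem sum_odd_only (f : ℕ → ℚ) (h : ∀ i, f (2 * i) = 0) (K : ℕ) :
    ∑ k ∈ range K, f k = ∑ i ∈ range (K / 2), f (2 * i + 1) := by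
  induction K with
  | zero => simp
  | succ K ih =>
    rw [Finset.sum_range_succ, ih]
    rcases Nat.even_or_odd' K with ⟨j, rfl | rfl⟩
    · rw [show (2 * j) / 2 = j by omega, show (2 * j + 1) / 2 = j by omega, h, add_zero]
    · rw [show (2 * j + 1 + 1) / 2 = j + 1 by omega, show (2 * j + 1) / 2 = j by omega,
        Finset.sum_range_succ]

end Pool.Agent.L5helper31.Aztec
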